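import Mathlib

/-!
# MP_9fddba_co : zero-sum subsequences avoiding prescribed length residues

We disprove Q1 for `G = C₂ ⊕ C₂ ⊕ C₂ ⊕ C₆`, where `n₁ = 2` and `D(G) = 9`: for `i = 2` and
`𝒜 = {1}` there is a sequence of length `D(G) + 1 = 10` all of whose non-empty zero-sum
subsequences have odd length.

The upper bound `D(G) ≤ 9` is proved by Fourier analysis over the field with three elements.
-/

namespace Pool.Agent.Results.MP_9fddba_co.RankFour

open Finset

/-- `D` is the Davenport constant of `G`: the least positive `t` such that every sequence over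
`G` of length at least `t` has a non-empty zero-sum subsequence.  A sequence of length `l` is given
by its terms `S 0, …, S (l - 1)`, a subsequence by the set `T` of the indices of its terms. -/
def IsDavenport (G : Type) [AddCommGroup G] (D : ℕ) : Prop :=
  IsLeast {t : ℕ | 0 < t ∧ ∀ l : ℕ, t ≤ l → ∀ S : Fin l → G,
    ∃ T : Finset (Fin l), T.Nonempty ∧ ∑ k ∈ T, S k = 0} D

/-- The statement of Q1: `G = C_{n 0} ⊕ ⋯ ⊕ C_{n r}`, `1 < n 0 ∣ n 1 ∣ ⋯ ∣ n r`. -/
def Q1 : Prop :=
  ∀ (r : ℕ) (n : Fin (r + 1) → ℕ), 1 < n 0 → (∀ j k, j ≤ k → n j ∣ n k) →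
    ∀ D : ℕ, IsDavenport (∀ k, ZMod (n k)) D → ∀ i : ℕ, 1 ≤ i → i ≤ n 0 →
      ∀ S : Fin (D + i - 1) → (∀ k, ZMod (n k)),
        ∀ A : Finset ℕ, A ⊆ Finset.Icc 1 (n 0 - 1) → A.card = i - 1 →
          ∃ T : Finset (Fin (D + i - 1)), T.Nonempty ∧ ∑ k ∈ T, S k = 0 ∧
            ∀ b ∈ A, ¬ T.card ≡ b [MOD n 0]

/-! ### Fourier analysis on `(ℤ/2)⁵` over the field with three elements -/

abbrev W := Fin 5 → ZMod 2

/-- the sign `ZMod 2 → {1, -1}` in `ZMod 3` -/
def sg (a : ZMod 2) : ZMod 3 := if a = 0 then 1 else -1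

theorem sg_add : ∀ a b : ZMod 2, sg (a + b) = sg a * sg b := by decide

theorem ind_eq : ∀ (a : ZMod 2) (t : ZMod 3), (if a = 1 then t else 0) = t * sg a - t := by decide

/-- the characters -/
def chi (M y : W) : ZMod 3 := sg (∑ j, M j * y j)

theorem chi_add (M N y : W) : chi (M + N) y = chi M y * chi N y := by
  unfold chi
  rw [← sg_add, ← Finset.sum_add_distrib]
  congr 1
  exact Finset.sum_congr rfl fun j _ => by simp [add_mul]

theorem chi_zero_right (M : W) : chi M 0 = 1 := by simp [chi, sg]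

theorem chi_zero_left (y : W) : chi 0 y = 1 := by simp [chi, sg]

set_option maxRecDepth 100000 in
theorem sum_chi : ∀ M : W, ∑ y : W, chi M y = if M = 0 then 2 else 0 := by decide +kernel

theorem add_eq_zero_iff' : ∀ (M N : W), M + N = 0 ↔ N = M := by
  intro M N
  constructor
  · intro h
    have h2 : M + M = 0 := by
      funext j; exact CharTwo.add_self_eq_zero _
    exact add_left_cancel (h.trans h2.symm)
  · rintro rfl
    funext j; exact CharTwo.add_self_eq_zero _

/-- If `f = ∑ c(M) χ_M` vanishes only at `0` then `∑_M c(M) c(M + P) = 1` for `P ≠ 0` and `= 2`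
for `P = 0`. -/
theorem autocorr (c : W → ZMod 3) (f : W → ZMod 3) (hf : ∀ y, f y = ∑ M, c M * chi M y)
    (h0 : f 0 = 0) (h1 : ∀ y, y ≠ 0 → f y ≠ 0) (P : W) :
    ∑ M, c M * c (M + P) = if P = 0 then 2 else 1 := by
  have hsq : ∀ y, f y * f y = if y = 0 then 0 else 1 := by
    intro y
    split_ifs with h
    · rw [h, h0, mul_zero]
    · have : ∀ a : ZMod 3, a ≠ 0 → a * a = 1 := by decide
      exact this _ (h1 y h)
  -- first evaluation
  have e1 : ∑ y, f y * f y * chi P y = (if P = 0 then 2 else 0) - 1 := by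
    have : ∀ y, f y * f y * chi P y = chi P y - if y = 0 then 1 else 0 := by
      intro y
      rw [hsq]
      split_ifs with h
      · rw [h, chi_zero_right]; simp
      · simp
    rw [Finset.sum_congr rfl fun y _ => this y, Finset.sum_sub_distrib, sum_chi]
    simp
  -- second evaluation
  have e2 : ∑ y, f y * f y * chi P y = 2 * ∑ M, c M * c (M + P) := by
    have : ∀ y, f y * f y * chi P y = ∑ M, ∑ N, c M * c N * chi (M + P + N) y := by
      intro y
      rw [hf y, Finset.sum_mul_sum, Finset.sum_mul]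
      refine Finset.sum_congr rfl fun M _ => ?_
      rw [Finset.sum_mul]
      refine Finset.sum_congr rfl fun N _ => ?_
      rw [chi_add, chi_add]; ring
    rw [Finset.sum_congr rfl fun y _ => this y, Finset.sum_comm]
    rw [Finset.mul_sum]
    refine Finset.sum_congr rfl fun M _ => ?_
    rw [Finset.sum_comm]
    rw [Finset.sum_eq_single (M + P)]
    · rw [← Finset.mul_sum, sum_chi, if_pos]
      · ring
      · rw [add_eq_zero_iff']
    · intro N _ hN
      rw [← Finset.mul_sum, sum_chi, if_neg, mul_zero]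
      rw [add_eq_zero_iff']; exact hN
    · intro h; exact absurd (mem_univ _) h
  have e3 : ∀ s : ZMod 3, (if P = 0 then 2 else 0) - 1 = 2 * s → s = if P = 0 then 2 else 1 := by
    split_ifs <;> decide
  exact e3 _ (e1.symm.trans e2)

/-- A function on `W` with at most `10` nonzero Fourier coefficients cannot vanish only at `0`. -/
theorem no_function (c : W → ZMod 3) (f : W → ZMod 3) (hf : ∀ y, f y = ∑ M, c M * chi M y)
    (h0 : f 0 = 0) (h1 : ∀ y, y ≠ 0 → f y ≠ 0)
    (hc : (univ.filter fun M => c M ≠ 0).card ≤ 10) : False := by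
  have hA := autocorr c f hf h0 h1
  set s := univ.filter fun M => c M ≠ 0 with hs
  -- the size modulo three
  have hmod : (s.card : ZMod 3) = 2 := by
    have h := hA 0
    rw [if_pos rfl] at h
    rw [← h]
    have : ∀ M, c M * c (M + 0) = if c M ≠ 0 then 1 else 0 := by
      intro M
      rw [add_zero]
      have : ∀ a : ZMod 3, a * a = if a ≠ 0 then 1 else 0 := by decide
      exact this _
    rw [Finset.sum_congr rfl fun M _ => this M, Finset.sum_boole]
  have h8 : s.card ≤ 8 := by
    generalize s.card = k at hmod hc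
    interval_cases k <;> first | omega | (exfalso; revert hmod; decide)
  -- counting
  have hcount : 2 * 31 ≤ (s ×ˢ s \ s.diag).card := by
    have hmaps : ∀ p ∈ s ×ˢ s \ s.diag, p.1 + p.2 ∈ (univ.erase (0 : W)) := by
      intro p hp
      rw [mem_sdiff, mem_product, mem_diag] at hp
      rw [mem_erase]
      refine ⟨fun h => hp.2 ⟨hp.1.1, ?_⟩, mem_univ _⟩
      exact ((add_eq_zero_iff' _ _).1 h).symm
    have hfib : ∀ P ∈ univ.erase (0 : W),
        2 ≤ ((s ×ˢ s \ s.diag).filter fun p => p.1 + p.2 = P).card := by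
      intro P hP
      have hP0 : P ≠ 0 := (mem_erase.1 hP).1
      have h := hA P
      rw [if_neg hP0] at h
      obtain ⟨M, -, hM⟩ : ∃ M ∈ (univ : Finset W), c M * c (M + P) ≠ 0 := by
        by_contra hcon
        push Not at hcon
        rw [Finset.sum_eq_zero hcon] at h
        exact absurd h (by decide)
      have hM1 : c M ≠ 0 := left_ne_zero_of_mul hM
      have hM2 : c (M + P) ≠ 0 := right_ne_zero_of_mul hM
      have hne : M ≠ M + P := by
        intro h
        exact hP0 (by simpa using h)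
      have hMM : M + M = 0 := (add_eq_zero_iff' M M).2 rfl
      have hpair := Finset.card_pair (show ((M, M + P) : W × W) ≠ (M + P, M) from fun h =>
        hne (Prod.ext_iff.1 h).1)
      refine hpair.symm.le.trans (card_le_card ?_)
      intro p hp
      rw [mem_insert, mem_singleton] at hp
      rw [mem_filter, mem_sdiff, mem_product, mem_diag]
      rcases hp with rfl | rfl
      · refine ⟨⟨⟨by simp [hs, hM1], by simp [hs, hM2]⟩, fun h => hne h.2⟩, ?_⟩
        change M + (M + P) = P
        rw [← add_assoc, hMM, zero_add]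
      · refine ⟨⟨⟨by simp [hs, hM2], by simp [hs, hM1]⟩, fun h => hne h.2.symm⟩, ?_⟩
        change M + P + M = P
        rw [add_comm M P, add_assoc, hMM, add_zero]
    rw [Finset.card_eq_sum_card_fiberwise hmaps]
    have h31 : (univ.erase (0 : W)).card = 31 := by
      rw [card_erase_of_mem (mem_univ _), card_univ]; simp [W, ZMod.card]
    calc 2 * 31 = (univ.erase (0 : W)).card • 2 := by rw [h31]; norm_num
      _ ≤ _ := Finset.card_nsmul_le_sum _ _ _ hfib
  have hle : (s ×ˢ s \ s.diag).card = s.card * s.card - s.card := by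
    rw [card_sdiff_of_subset, card_product, diag_card]
    intro p hp
    rw [mem_diag] at hp
    rw [mem_product]
    exact ⟨hp.1, hp.2 ▸ hp.1⟩
  rw [hle] at hcount
  generalize s.card = k at hcount h8
  interval_cases k <;> omega

/-- Nine elements of `C₂⁴ ⊕ C₃` have a non-empty zero-sum subsequence, in coordinates. -/
theorem key (v : Fin 9 → (Fin 4 → ZMod 2)) (t : Fin 9 → ZMod 3) :
    ∃ x : Fin 9 → ZMod 2, x ≠ 0 ∧ ∑ i, x i • v i = 0 ∧
      ∑ i, (if x i = 1 then t i else 0) = 0 := by
  classical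
  by_contra hcon
  push Not at hcon
  -- five independent dependencies
  let φ : (Fin 9 → ZMod 2) →ₗ[ZMod 2] (Fin 4 → ZMod 2) := Fintype.linearCombination (ZMod 2) v
  have hφ : ∀ x, φ x = ∑ i, x i • v i := fun x => Fintype.linearCombination_apply _ _ _
  have hrk := LinearMap.finrank_range_add_finrank_ker φ
  have hle : Module.finrank (ZMod 2) (LinearMap.range φ) ≤ 4 := by
    refine (Submodule.finrank_le _).trans ?_
    simp
  have h9 : Module.finrank (ZMod 2) (Fin 9 → ZMod 2) = 9 := by simp
  have h5 : 5 ≤ Module.finrank (ZMod 2) (LinearMap.ker φ) := by omega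
  let bs := Module.finBasis (ZMod 2) (LinearMap.ker φ)
  let g0 : Fin 5 → LinearMap.ker φ := fun j => bs (Fin.castLE h5 j)
  have hg0 : LinearIndependent (ZMod 2) g0 :=
    bs.linearIndependent.comp _ (Fin.castLE_injective h5)
  let L : Fin 9 → W := fun i j => (g0 j : Fin 9 → ZMod 2) i
  -- the vector attached to `y`
  let g : W → (Fin 9 → ZMod 2) := fun y i => ∑ j, L i j * y j
  have hg : ∀ y, g y = ((∑ j, y j • g0 j : LinearMap.ker φ) : Fin 9 → ZMod 2) := by
    intro y
    funext i
    simp only [g, L, AddSubmonoidClass.coe_finsetSum, Submodule.coe_smul, Finset.sum_apply,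
      Pi.smul_apply, smul_eq_mul]
    exact Finset.sum_congr rfl fun j _ => mul_comm _ _
  have hgker : ∀ y, ∑ i, g y i • v i = 0 := by
    intro y
    rw [← hφ, hg y]
    exact (∑ j, y j • g0 j : LinearMap.ker φ).2
  have hginj : ∀ y, y ≠ 0 → g y ≠ 0 := by
    intro y hy h
    rw [hg y] at h
    have h' : (∑ j, y j • g0 j : LinearMap.ker φ) = 0 := Subtype.ext h
    apply hy
    funext j
    exact Fintype.linearIndependent_iff.1 hg0 y h' j
  let f : W → ZMod 3 := fun y => ∑ i, (if g y i = 1 then t i else 0)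
  have hf1 : ∀ y, y ≠ 0 → f y ≠ 0 := fun y hy => hcon (g y) (hginj y hy) (hgker y)
  have hf0 : f 0 = 0 := by
    simp [f, g]
  -- Fourier coefficients
  let L' : Option (Fin 9) → W := fun o => o.elim 0 L
  let t' : Option (Fin 9) → ZMod 3 := fun o => o.elim (-∑ i, t i) t
  let c : W → ZMod 3 := fun M => ∑ o : Option (Fin 9), if L' o = M then t' o else 0
  have hfc : ∀ y, f y = ∑ M, c M * chi M y := by
    intro y
    have e1 : ∑ M, c M * chi M y = ∑ o : Option (Fin 9), t' o * chi (L' o) y := by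
      simp only [c, Finset.sum_mul]
      rw [Finset.sum_comm]
      refine Finset.sum_congr rfl fun o _ => ?_
      simp only [ite_mul, zero_mul]
      rw [Finset.sum_ite_eq]
      simp
    rw [e1, Fintype.sum_option]
    simp only [t', L', Option.elim_none, Option.elim_some, chi_zero_left, mul_one]
    simp only [f]
    rw [Finset.sum_congr rfl fun i _ => ind_eq (g y i) (t i), Finset.sum_sub_distrib]
    simp only [g, chi]
    ring
  refine no_function c f hfc hf0 hf1 ?_
  calc (univ.filter fun M => c M ≠ 0).card ≤ (univ.image L').card := by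
        refine card_le_card fun M hM => ?_
        rw [mem_filter] at hM
        rw [mem_image]
        by_contra hcon2
        push Not at hcon2
        exact hM.2 (Finset.sum_eq_zero fun o ho => if_neg (hcon2 o ho))
    _ ≤ (univ : Finset (Option (Fin 9))).card := card_image_le
    _ = 10 := by simp

/-! ### The group `C₂ ⊕ C₂ ⊕ C₂ ⊕ C₆` -/

/-- The invariants `2, 2, 2, 6`. -/
def inv4 : Fin 4 → ℕ := ![2, 2, 2, 6]

/-- The group. -/
abbrev G4 := ∀ k, ZMod (inv4 k)

theorem zmod6 : ∀ z : ZMod 6, ZMod.castHom (show 2 ∣ 6 by decide) (ZMod 2) z = 0 →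
    ZMod.castHom (show 3 ∣ 6 by decide) (ZMod 3) z = 0 → z = 0 := by decide

/-- the two-part of an element -/
def vv (x : G4) : Fin 4 → ZMod 2 :=
  ![x 0, x 1, x 2, ZMod.castHom (show 2 ∣ 6 by decide) (ZMod 2) (x 3 : ZMod 6)]

/-- the three-part of an element -/
def tt (x : G4) : ZMod 3 := ZMod.castHom (show 3 ∣ 6 by decide) (ZMod 3) (x 3 : ZMod 6)

theorem one_of_ne : ∀ a : ZMod 2, a ≠ 0 → a = 1 := by decide

theorem smul_ite : ∀ a b : ZMod 2, a * b = if a = 1 then b else 0 := by decide

theorem nine (S : Fin 9 → G4) : ∃ T : Finset (Fin 9), T.Nonempty ∧ ∑ k ∈ T, S k = 0 := by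
  obtain ⟨x, hx, hv, ht⟩ := key (fun i => vv (S i)) (fun i => tt (S i))
  refine ⟨univ.filter fun i => x i = 1, ?_, ?_⟩
  · obtain ⟨i, hi⟩ := Function.ne_iff.1 hx
    exact ⟨i, mem_filter.2 ⟨mem_univ _, one_of_ne _ hi⟩⟩
  have hv' : ∀ j, ∑ i ∈ univ.filter (fun i => x i = 1), vv (S i) j = 0 := by
    intro j
    have h := congrFun hv j
    rw [Finset.sum_apply] at h
    simp only [Pi.smul_apply, smul_eq_mul, smul_ite] at h
    rw [Finset.sum_filter]
    exact h
  rw [← Finset.sum_filter] at ht
  funext k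
  rw [Finset.sum_apply]
  fin_cases k
  · exact hv' 0
  · exact hv' 1
  · exact hv' 2
  · apply zmod6
    · change ZMod.castHom (show 2 ∣ 6 by decide) (ZMod 2)
        (∑ i ∈ univ.filter (fun i => x i = 1), (S i 3 : ZMod 6)) = 0
      rw [map_sum]
      exact hv' 3
    · change ZMod.castHom (show 3 ∣ 6 by decide) (ZMod 3)
        (∑ i ∈ univ.filter (fun i => x i = 1), (S i 3 : ZMod 6)) = 0
      rw [map_sum]
      exact ht

/-- the element with given coordinates -/
def mk (a : Fin 4 → ℕ) : G4 := fun k => ((a k : ℕ) : ZMod (inv4 k))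

/-- A sequence of length eight without zero-sum subsequence: `e₁, e₂, e₃` and five times `e₄`. -/
def S8 : Fin 8 → G4 := fun i =>
  mk (![![1, 0, 0, 0], ![0, 1, 0, 0], ![0, 0, 1, 0], ![0, 0, 0, 1], ![0, 0, 0, 1], ![0, 0, 0, 1],
    ![0, 0, 0, 1], ![0, 0, 0, 1]] i)

set_option maxRecDepth 100000 in
theorem S8_free : ∀ T : Finset (Fin 8), T.Nonempty → ∑ k ∈ T, S8 k ≠ 0 := by decide +kernel

/-- The sequence of length ten. -/
def S10 : Fin 10 → G4 := fun i =>
  mk (![![0, 0, 0, 1], ![1, 1, 0, 5], ![1, 1, 0, 5], ![1, 1, 1, 4], ![0, 1, 0, 4], ![1, 0, 1, 4],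
    ![1, 1, 0, 5], ![0, 1, 0, 1], ![1, 0, 1, 1], ![1, 1, 1, 1]] i)

set_option maxRecDepth 100000 in
theorem S10_odd : ∀ T : Finset (Fin 10), T.Nonempty → ∑ k ∈ T, S10 k = 0 → T.card % 2 = 1 := by
  decide +kernel

/-- The Davenport constant of `C₂ ⊕ C₂ ⊕ C₂ ⊕ C₆` is `9`. -/
theorem davenport : IsDavenport G4 9 := by
  constructor
  · refine ⟨by norm_num, fun l hl S => ?_⟩
    obtain ⟨T, hT, hs⟩ := nine (fun i => S (Fin.castLE hl i))
    refine ⟨T.map (Fin.castLEEmb hl), hT.map, ?_⟩
    rw [Finset.sum_map]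
    exact hs
  · rintro t ⟨-, ht⟩
    by_contra hlt
    obtain ⟨T, hT, hs⟩ := ht 8 (by omega) S8
    exact S8_free T hT hs

/-- **Q1 is false.**  The group `G = C₂ ⊕ C₂ ⊕ C₂ ⊕ C₆` has Davenport constant `9`, and there is a
sequence of length `10` over `G` whose non-empty zero-sum subsequences all have odd length. -/
theorem result :
    IsDavenport (∀ k, ZMod (inv4 k)) 9 ∧
    (∃ S : Fin 10 → (∀ k, ZMod (inv4 k)), ∀ T : Finset (Fin 10), T.Nonempty →
      ∑ k ∈ T, S k = 0 → Odd T.card) ∧
    ¬ Q1 := by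
  refine ⟨davenport, ⟨S10, fun T hT hs => Nat.odd_iff.2 (S10_odd T hT hs)⟩, fun h => ?_⟩
  obtain ⟨T, hT, hs, hb⟩ := h 3 inv4 (by decide) (by decide) 9 davenport 2 (by norm_num)
    (by decide) S10 {1} (by decide) (by decide)
  exact hb 1 (mem_singleton_self 1) (S10_odd T hT hs)

end Pool.Agent.Results.MP_9fddba_co.RankFour
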